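import Pool.Agent.T2h14.FD.Stm

/-!
Task CN: finitely many power series are defined over a small subfield, up to an automorphism.
-/

set_option autoImplicit false

open MvPowerSeries IsLocalRing
open scoped TensorProduct

namespace Pool.Agent.T2h14.FD

/-- the derivations do not depend on the algebra structure over the integers -/
theorem conv_der {R : Type} [CommRing R] (i1 i2 : Algebra ℤ R)
    (D : @Derivation ℤ R R Int.instCommSemiring CommRing.toCommSemiring
      NonUnitalNonAssocSemiring.toAddCommMonoid i1 Semiring.toModule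
      (AddCommGroup.toIntModule R)) :
    ∃ D' : @Derivation ℤ R R Int.instCommSemiring CommRing.toCommSemiring
      NonUnitalNonAssocSemiring.toAddCommMonoid i2 Semiring.toModule
      (AddCommGroup.toIntModule R), ∀ x, D' x = D x := by
  obtain rfl : i1 = i2 := Subsingleton.elim _ _
  exact ⟨D, fun _ => rfl⟩

/-- conjugate derivations -/
theorem conj_der {R : Type} [CommRing R] (D : Derivation ℤ R R) (θ : R ≃+* R) :
    ∃ D' : Derivation ℤ R R, ∀ x, D' x = θ (D (θ.symm x)) := by
  refine ⟨Derivation.mk' ((θ.toRingHom.toAddMonoidHom.comp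
    ((D : R →ₗ[ℤ] R).toAddMonoidHom.comp θ.symm.toRingHom.toAddMonoidHom)).toIntLinearMap) ?_,
    fun x => rfl⟩
  intro a b
  change θ (D (θ.symm (a * b))) = a • θ (D (θ.symm b)) + b • θ (D (θ.symm a))
  rw [map_mul, Derivation.leibniz, map_add, smul_eq_mul, smul_eq_mul, smul_eq_mul, smul_eq_mul,
    map_mul, map_mul, θ.apply_symm_apply, θ.apply_symm_apply]

/-- conjugate derivations of power series rings, in the form needed for the Newton iteration -/
theorem conj_der' {n : ℕ} {k : Type} [Field k]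
    (D : @Derivation ℤ (Rn n k) (Rn n k) Int.instCommSemiring CommRing.toCommSemiring
      CommRing.toCommSemiring.toAddCommMonoid (Ring.toIntAlgebra (Rn n k)) Semiring.toModule
      (AddCommGroup.toIntModule (Rn n k))) (θ : Rn n k ≃+* Rn n k) :
    ∃ D' : Derivation ℤ (Rn n k) (Rn n k), ∀ x, D' x = θ (D (θ.symm x)) := by
  obtain ⟨D1, h1⟩ := conj_der D θ
  obtain ⟨D2, h2⟩ := conv_der _ (MvPowerSeries.instAlgebra) D1
  exact ⟨D2, fun x => (h2 x).trans (h1 x)⟩

/-- conjugate derivations of power series rings, in the form needed for the minors -/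
theorem conj_der'' {n : ℕ} {k : Type} [Field k] (D : Derivation ℤ (Rn n k) (Rn n k))
    (θ : Rn n k ≃+* Rn n k) :
    ∃ D' : @Derivation ℤ (Rn n k) (Rn n k) Int.instCommSemiring CommRing.toCommSemiring
      CommRing.toCommSemiring.toAddCommMonoid (Ring.toIntAlgebra (Rn n k)) Semiring.toModule
      (AddCommGroup.toIntModule (Rn n k)), ∀ x, D' x = θ (D (θ.symm x)) := by
  obtain ⟨D1, h1⟩ := conv_der _ (Ring.toIntAlgebra (Rn n k)) D
  obtain ⟨D2, h2⟩ := conj_der D1 θ
  exact ⟨D2, fun x => by rw [h2, h1]⟩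

/-- the induction step, over an infinite field -/
theorem cn_step (hDER : DER) (hREG : REG) (hWEI : WEI) (hCDER : CDER) (hEXT : EXT) (hMIN : MIN)
    (hNEW : NEW) (p : ℕ) [Fact p.Prime] (k : Type) [Field k] [CharP k p] [Infinite k] (n : ℕ)
    (ih : ∀ (r : ℕ) (f : Fin r → Rn n k),
      ∃ (θ : Rn n k ≃+* Rn n k) (L : Subfield k) (g : Fin r → Rn n k),
        Sml p L ∧ (∀ j α, coeff α (g j) ∈ L) ∧ ∀ j, θ (g j) = f j)
    (r : ℕ) (f : Fin r → Rn (n + 1) k) :
    ∃ (θ : Rn (n + 1) k ≃+* Rn (n + 1) k) (L : Subfield k) (g : Fin r → Rn (n + 1) k),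
      Sml p L ∧ (∀ j α, coeff α (g j) ∈ L) ∧ ∀ j, θ (g j) = f j := by
  haveI : IsDomain (Rn (n + 1) k) := NoZeroDivisors.to_isDomain _
  obtain ⟨s, D, j, hdet, hrel⟩ := hMIN (Rn (n + 1) k) r f
  obtain ⟨θ₁, hθ₁⟩ := hREG k n _ hdet
  choose D' hD' using fun i => conj_der' (D i) θ₁
  set f' : Fin s → Rn (n + 1) k := fun l => θ₁ (f (j l)) with hf'
  have hmat : (Matrix.of fun i l => D' i (f' l)).det =
      θ₁ (Matrix.of fun i l => D i (f (j l))).det := by
    have e : (Matrix.of fun i l => D' i (f' l)) =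
        θ₁.toRingHom.mapMatrix (Matrix.of fun i l => D i (f (j l))) := by
      ext1 i l
      change D' i (f' l) = θ₁ (D i (f (j l)))
      rw [hD', hf', θ₁.symm_apply_apply]
    rw [e, ← RingHom.map_det]
    rfl
  set δ' := (Matrix.of fun i l => D' i (f' l)).det with hδdef
  have hδ' : δ' ≠ 0 := by
    rw [hmat]
    intro h
    exact hdet ((map_eq_zero_iff θ₁ θ₁.injective).1 h)
  have hG : PowerSeries.map (constantCoeff (σ := Fin n) (R := k))
      (finSuccEquiv k n (X 0 ^ 2 * δ' ^ 2)) ≠ 0 := by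
    rw [map_mul, map_mul, map_pow, map_pow, map_pow, map_pow, finSuccEquiv_X_zero,
      PowerSeries.map_X]
    refine mul_ne_zero (pow_ne_zero _ PowerSeries.X_ne_zero) (pow_ne_zero _ ?_)
    rw [hmat]
    exact hθ₁
  choose q ρ hρ using fun l => hWEI k n _ hG (f' l)
  set F : Fin s → Rn (n + 1) k := fun l =>
    (finSuccEquiv k n).symm (ρ l : PowerSeries (Rn n k)) with hF
  set N := Finset.univ.sup (fun l => (ρ l).natDegree) + 1 with hN
  obtain ⟨θ₀, L, g₀, hL, hg₀, hθ₀⟩ := ih (s * N)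
    (fun u => (ρ (finProdFinEquiv.symm u).1).coeff (finProdFinEquiv.symm u).2)
  obtain ⟨Θ₀, hΘ₀⟩ := hEXT k n θ₀
  obtain ⟨τ, hτ⟩ := hNEW p k (n + 1) s D' f' F (X 0) (constantCoeff_X 0) hδ' (by
    intro l
    refine ⟨q l, ?_⟩
    have := hρ l
    rw [sub_eq_iff_eq_add]
    exact this)
  set θ : Rn (n + 1) k ≃+* Rn (n + 1) k := (Θ₀.trans τ).trans θ₁.symm with hθ
  have hρ0 : ∀ l α, coeff α (Θ₀.symm (F l)) ∈ L := by
    intro l α
    have e1 : coeff α (Θ₀.symm (F l)) =
        coeff α.tail (PowerSeries.coeff (α 0) (finSuccEquiv k n (Θ₀.symm (F l)))) := by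
      rw [coeff_coeff_finSuccEquiv, Finsupp.cons_tail]
    have e2 : θ₀ (PowerSeries.coeff (α 0) (finSuccEquiv k n (Θ₀.symm (F l)))) =
        (ρ l).coeff (α 0) := by
      rw [← hΘ₀, Θ₀.apply_symm_apply, hF]
      simp only [AlgEquiv.apply_symm_apply]
      rw [Polynomial.coeff_coe]
    rw [e1]
    by_cases hα : α 0 < N
    · have e3 := hθ₀ (finProdFinEquiv (l, ⟨α 0, hα⟩))
      rw [Equiv.symm_apply_apply] at e3
      have e4 : PowerSeries.coeff (α 0) (finSuccEquiv k n (Θ₀.symm (F l))) =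
          g₀ (finProdFinEquiv (l, ⟨α 0, hα⟩)) := θ₀.injective (e2.trans e3.symm)
      rw [e4]
      exact hg₀ _ _
    · have e3 : (ρ l).coeff (α 0) = 0 := by
        apply Polynomial.coeff_eq_zero_of_natDegree_lt
        have : (ρ l).natDegree ≤ Finset.univ.sup (fun l => (ρ l).natDegree) :=
          Finset.le_sup (f := fun l => (ρ l).natDegree) (Finset.mem_univ l)
        omega
      rw [e3, map_eq_zero_iff θ₀ θ₀.injective] at e2
      rw [e2, map_zero]
      exact L.zero_mem
  refine ⟨θ, L, fun i => θ.symm (f i), hL, ?_, fun i => θ.apply_symm_apply _⟩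
  intro i α
  by_contra hc
  obtain ⟨d, hd, hdc⟩ := hDER p k L hL.1 _ hc
  obtain ⟨Dd, hDd⟩ := hCDER k (n + 1) d
  obtain ⟨D'', hD''⟩ := conj_der'' Dd θ
  obtain ⟨a, ha⟩ := hrel i
  have h1 := ha D''
  have h2 : ∀ l, D'' (f (j l)) = 0 := by
    intro l
    have e1 : θ.symm (f (j l)) = Θ₀.symm (F l) := by
      rw [RingEquiv.symm_apply_eq, hθ]
      simp only [RingEquiv.trans_apply, RingEquiv.apply_symm_apply]
      rw [hτ, hf', RingEquiv.symm_apply_apply]
    have e2 : Dd (Θ₀.symm (F l)) = 0 := by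
      ext β
      rw [hDd, hd _ (hρ0 l β), map_zero]
    rw [hD'', e1, e2, map_zero]
  have h3 : D'' (f i) = 0 := by
    have : ∑ l, a l * D'' (f (j l)) = 0 := Finset.sum_eq_zero fun l _ => by rw [h2, mul_zero]
    rw [this] at h1
    exact (mul_eq_zero.1 h1).resolve_left hdet
  rw [hD'', map_eq_zero_iff θ θ.injective] at h3
  apply hdc
  rw [← hDd, h3, map_zero]

/-- over a finite field -/
theorem cn_finite (p : ℕ) [Fact p.Prime] (k : Type) [Field k] [CharP k p] [Finite k] :
    Sml p (⊤ : Subfield k) := by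
  classical
  refine ⟨fun x => Subfield.mem_top _, {1}, fun b _ => Subfield.mem_top _, fun y _ => ?_⟩
  have hs : Function.Surjective (frobenius k p) :=
    Finite.surjective_of_injective (frobenius_inj k p)
  obtain ⟨c, hc⟩ := hs y
  refine ⟨fun _ => c, ?_⟩
  rw [Finset.sum_singleton, mul_one, ← hc]
  rfl

theorem t_CN (hDER : DER) (hBASE : BASE) (hREG : REG) (hWEI : WEI) (hCDER : CDER) (hEXT : EXT)
    (hMIN : MIN) (hNEW : NEW) : CN := by
  classical
  intro p _ k _ _ n
  rcases finite_or_infinite k with hk | hk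
  · intro r f
    exact ⟨RingEquiv.refl _, ⊤, f, cn_finite p k, fun _ _ => Subfield.mem_top _, fun _ => rfl⟩
  induction n with
  | zero =>
    intro r f
    obtain ⟨L, hT, hL⟩ := hBASE p k (Finset.univ.image fun j => coeff (0 : Fin 0 →₀ ℕ) (f j))
    refine ⟨RingEquiv.refl _, L, f, hL, fun j α => ?_, fun _ => rfl⟩
    have : α = 0 := Subsingleton.elim _ _
    rw [this]
    exact hT _ (Finset.mem_image_of_mem _ (Finset.mem_univ j))
  | succ n ih =>
    intro r f
    exact cn_step hDER hREG hWEI hCDER hEXT hMIN hNEW p k n ih r f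

end Pool.Agent.T2h14.FD
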