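import Pool.Agent.T2h14.FD.Stm

/-!
Task MAIN: the Frobenius of a complete local ring decompletes.
-/

set_option autoImplicit false

open MvPowerSeries IsLocalRing
open scoped TensorProduct

namespace Pool.Agent.T2h14.FD

/-- the roots of the coefficients are moved inside of the `p`-th powers -/
theorem root_inside (p : ℕ) [Fact p.Prime] (k K : Type) [Field k] [CharP k p] [Field K] [CharP K p]
    [PerfectRing K p] (u : k →+* K) (n : ℕ) (g : Rn n k) (s : Finset k)
    (G : k → (Fin n → Fin p) → Rn n k)
    (hG : g = ∑ β, ∑ b ∈ s, C b * (∏ i, X i ^ (β i : ℕ)) * G b β ^ p) :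
    MvPowerSeries.map u g = ∑ β : Fin n → Fin p, (∏ i, X i ^ (β i : ℕ)) *
      (∑ b ∈ s, C ((frobeniusEquiv K p).symm (u b)) * MvPowerSeries.map u (G b β)) ^ p := by
  haveI : CharP (Rn n K) p := charP_of_injective_ringHom (C_injective (σ := Fin n) (R := K)) p
  conv_lhs => rw [hG]
  rw [map_sum]
  refine Finset.sum_congr rfl fun β _ => ?_
  rw [map_sum, sum_pow_char, Finset.mul_sum]
  refine Finset.sum_congr rfl fun b _ => ?_
  have e : (C ((frobeniusEquiv K p).symm (u b)) : Rn n K) ^ p = C (u b) := by
    rw [← map_pow, frobeniusEquiv_symm_pow_p]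
  rw [map_mul, map_mul, map_prod, map_pow, mul_pow, e, map_C]
  simp only [map_pow, map_X]
  ring

theorem t_MAIN (hPRE : PRE) (hFRB : FRB) (hCMP : CMP) (hDES : DES) : MAIN := by
  intro p _ A _ _ _ _ _ _
  obtain ⟨n, r, E, L, g, hEs, hres, hmax, hker, hL, hg⟩ := hPRE p A
  refine ⟨E.comp C, fun c => hres c, ?_⟩
  unfold Decompletes
  letI : Algebra (ResidueField A) A := (E.comp C).toAlgebra
  letI : Algebra (ResidueField A) (PerfectClosure (ResidueField A) p) :=
    (PerfectClosure.of (ResidueField A) p).toAlgebra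
  obtain ⟨π, hπs, hπk, hπC, hπE⟩ := hCMP (ResidueField A) (PerfectClosure (ResidueField A) p) A
    n r E g hEs (fun c => rfl) hmax hker _ rfl
  choose s G hG using fun j => hFRB p (ResidueField A) n L hL (g j) (hg j)
  refine hDES p (PerfectClosure (ResidueField A) p)
    (PerfectClosure (ResidueField A) p ⊗[ResidueField A] A) _ n r π
    (fun j => MvPowerSeries.map (algebraMap (ResidueField A)
      (PerfectClosure (ResidueField A) p)) (g j))
    (fun j β => ∑ b ∈ s j, C ((frobeniusEquiv (PerfectClosure (ResidueField A) p) p).symm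
      (algebraMap (ResidueField A) (PerfectClosure (ResidueField A) p) b)) *
      MvPowerSeries.map (algebraMap (ResidueField A) (PerfectClosure (ResidueField A) p))
        (G j b β))
    (fun i => 1 ⊗ₜ[ResidueField A] E (X i)) hπs hπk ?_ ?_ ?_
  · intro i
    have := hπE (X i)
    rwa [map_X] at this
  · intro j
    exact root_inside p _ _ (algebraMap _ _) n (g j) (s j) (G j) (hG j)
  · intro j β
    refine ⟨∑ b ∈ s j, ((frobeniusEquiv (PerfectClosure (ResidueField A) p) p).symm
      (algebraMap (ResidueField A) (PerfectClosure (ResidueField A) p) b)) ⊗ₜ[ResidueField A]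
        E (G j b β), ?_⟩
    rw [map_sum, map_sum]
    refine Finset.sum_congr rfl fun b _ => ?_
    rw [map_mul, hπC, hπE, ← map_mul, Algebra.TensorProduct.tmul_mul_tmul, mul_one, one_mul]

/-- the characteristic of the residue field -/
theorem charP_residue (p : ℕ) [Fact p.Prime] (A : Type) [CommRing A] [IsLocalRing A] [CharP A p] :
    CharP (ResidueField A) p := by
  rw [CharP.charP_iff_prime_eq_zero Fact.out]
  have : ((p : A) : A) = 0 := CharP.cast_eq_zero A p
  rw [← map_natCast (residue A), this, map_zero]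

end Pool.Agent.T2h14.FD
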