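import Mathlib

/-!
Definitions: coefficient fields, and the problem of the decompletion of the Frobenius.
-/

set_option autoImplicit false

open IsLocalRing
open scoped TensorProduct

namespace Pool.Agent.T2h14.FD

/-- The section `σ` of the residue map of the local ring `A`, with values in `A`; the image of `σ` is a
coefficient field of `A`, and all the coefficient fields are obtained in this way. -/
def IsCoefficientField {A : Type} [CommRing A] [IsLocalRing A] (σ : ResidueField A →+* A) : Prop :=
  ∀ c, residue A (σ c) = c

/-- Let `B` be a ring, `I` an ideal, and `B̂` the completion of `B` at `I`. There is a finite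
`B`-algebra `C` such that the map `B̂ → C ⊗ B̂` is isomorphic to the Frobenius of `B̂`: there is an
isomorphism of rings `φ : C ⊗ B̂ → B̂` such that the composition with `B̂ → C ⊗ B̂` is `x ↦ x ^ p`. -/
def FrobeniusDescends (p : ℕ) (B : Type) [CommRing B] (I : Ideal B) : Prop :=
  ∃ (C : Type) (_ : CommRing C) (_ : Algebra B C), Module.Finite B C ∧
    ∃ φ : (C ⊗[B] AdicCompletion I B) ≃+* AdicCompletion I B,
      ∀ x : AdicCompletion I B, φ ((1 : C) ⊗ₜ[B] x) = x ^ p

/-- Let `σ` be a coefficient field `k` of the local ring `A`, `K` the perfect closure of `k`,
`A' = K ⊗ A` the tensor product over `k`, and `𝔪'` its ideal generated by the maximal ideal of `A`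
(this is the maximal ideal of `A'`). The Frobenius of the completion of `A'` at `𝔪'` is isomorphic to
the map given by a finite `A'`-algebra. -/
def Decompletes (p : ℕ) [Fact p.Prime] {A : Type} [CommRing A] [IsLocalRing A]
    [CharP (ResidueField A) p] (σ : ResidueField A →+* A) : Prop :=
  letI : Algebra (ResidueField A) A := σ.toAlgebra
  letI : Algebra (ResidueField A) (PerfectClosure (ResidueField A) p) :=
    (PerfectClosure.of (ResidueField A) p).toAlgebra
  FrobeniusDescends p (PerfectClosure (ResidueField A) p ⊗[ResidueField A] A)
    ((maximalIdeal A).map (Algebra.TensorProduct.includeRight :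
      A →ₐ[ResidueField A] PerfectClosure (ResidueField A) p ⊗[ResidueField A] A))

end Pool.Agent.T2h14.FD
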