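import Pool.Agent.T2h14.FD.Def

/-!
Statements of the tasks of the project FD (decompleting the Frobenius of a complete local ring).
-/

set_option autoImplicit false

open MvPowerSeries IsLocalRing
open scoped TensorProduct

namespace Pool.Agent.T2h14.FD

/-- the power series ring in `n` variables -/
abbrev Rn (n : ℕ) (k : Type) : Type := MvPowerSeries (Fin n) k

/-- order at least `m` -/
def OrdGe {n : ℕ} {k : Type} [Field k] (m : ℕ) (f : Rn n k) : Prop :=
  ∀ α : Fin n →₀ ℕ, α.degree < m → coeff α f = 0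

/-- Small subfields: they contain `k ^ p` and have finite degree over `k ^ p`. -/
def Sml (p : ℕ) {k : Type} [Field k] (L : Subfield k) : Prop :=
  (∀ x : k, x ^ p ∈ L) ∧ ∃ s : Finset k, (∀ b ∈ s, b ∈ L) ∧
    ∀ y ∈ L, ∃ c : k → k, y = ∑ b ∈ s, c b ^ p * b

/-! ### Fields -/

/-- Task SMO: a field of characteristic `p` is formally smooth over `𝔽_p`. -/
def SMO : Prop := ∀ (p : ℕ) [Fact p.Prime] (k : Type) [Field k] [Algebra (ZMod p) k],
  Algebra.FormallySmooth (ZMod p) k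

/-- Task DER: the derivations over a subfield `L ⊇ k ^ p` have no other constants than `L`. -/
def DER : Prop := ∀ (p : ℕ) [Fact p.Prime] (k : Type) [Field k] [CharP k p] (L : Subfield k),
  (∀ x : k, x ^ p ∈ L) → ∀ c : k, c ∉ L → ∃ d : Derivation ℤ k k, (∀ x ∈ L, d x = 0) ∧ d c ≠ 0

/-- Task BASE: finite sets are contained in small subfields. -/
def BASE : Prop := ∀ (p : ℕ) [Fact p.Prime] (k : Type) [Field k] [CharP k p] (T : Finset k),
  ∃ L : Subfield k, (∀ t ∈ T, t ∈ L) ∧ Sml p L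

/-! ### Power series rings -/

/-- Task POW: the powers of the maximal ideal. -/
def POW : Prop := ∀ (k : Type) [Field k] (n m : ℕ) (f : Rn n k),
  f ∈ maximalIdeal (Rn n k) ^ m ↔ OrdGe m f

/-- Task COMM: completeness at the maximal ideal. -/
def COMM : Prop := ∀ (k : Type) [Field k] (n : ℕ), IsAdicComplete (maximalIdeal (Rn n k)) (Rn n k)

/-- Task COMP: completeness at principal ideals. -/
def COMP : Prop := ∀ (k : Type) [Field k] (n : ℕ) (z : Rn n k), constantCoeff z = 0 →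
  IsAdicComplete (Ideal.span {z}) (Rn n k)

/-- Task CLO: ideals are closed. -/
def CLO : Prop := ∀ (k : Type) [Field k] (n : ℕ) (J : Ideal (Rn n k)) (f : Rn n k),
  (∀ m : ℕ, ∃ g ∈ J, OrdGe m (f - g)) → f ∈ J

/-- Task EVAL: evaluation of power series in complete rings. -/
def EVAL : Prop := ∀ (k A : Type) [Field k] [CommRing A] (I : Ideal A) [IsAdicComplete I A] (n : ℕ)
  (ψ : k →+* A) (y : Fin n → A), (∀ i, y i ∈ I) →
  ∃ E : Rn n k →+* A, (∀ c, E (C c) = ψ c) ∧ (∀ i, E (X i) = y i) ∧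
    ∀ (m : ℕ) (f : Rn n k), OrdGe m f → E f ∈ I ^ m

/-- Task UNIQ: uniqueness of the evaluation, and the orders. -/
def UNIQ : Prop := ∀ (k A : Type) [Field k] [CommRing A] (I : Ideal A) (n : ℕ)
  (E : Rn n k →+* A), (∀ i, E (X i) ∈ I) →
  (∀ (m : ℕ) (f : Rn n k), OrdGe m f → E f ∈ I ^ m) ∧
  ∀ [IsHausdorff I A] (E' : Rn n k →+* A), (∀ c, E' (C c) = E (C c)) →
    (∀ i, E' (X i) = E (X i)) → E' = E

/-- Task SUR: surjectivity of the evaluation. -/
def SUR : Prop := ∀ (k A : Type) [Field k] [CommRing A] (I : Ideal A) [IsAdicComplete I A] (n : ℕ)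
  (E : Rn n k →+* A), I = Ideal.span (Set.range fun i => E (X i)) →
  (∀ a : A, ∃ f : Rn n k, a - E f ∈ I) → Function.Surjective E

/-- Task REG: change of coordinates. -/
def REG : Prop := ∀ (k : Type) [Field k] [Infinite k] (n : ℕ) (δ : Rn (n + 1) k), δ ≠ 0 →
  ∃ θ : Rn (n + 1) k ≃+* Rn (n + 1) k,
    PowerSeries.map (constantCoeff (σ := Fin n) (R := k)) (finSuccEquiv k n (θ δ)) ≠ 0

/-- Task WEI: Weierstrass division. -/
def WEI : Prop := ∀ (k : Type) [Field k] (n : ℕ) (G : Rn (n + 1) k),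
  PowerSeries.map (constantCoeff (σ := Fin n) (R := k)) (finSuccEquiv k n G) ≠ 0 →
  ∀ f : Rn (n + 1) k, ∃ (q : Rn (n + 1) k) (ρ : Polynomial (Rn n k)),
    f = G * q + (finSuccEquiv k n).symm (ρ : PowerSeries (Rn n k))

/-- Task CDER: coefficientwise derivations. -/
def CDER : Prop := ∀ (k : Type) [Field k] (n : ℕ) (d : Derivation ℤ k k),
  ∃ D : Derivation ℤ (Rn n k) (Rn n k), ∀ f α, coeff α (D f) = d (coeff α f)

/-- Task EXT: extension of automorphisms. -/
def EXT : Prop := ∀ (k : Type) [Field k] (n : ℕ) (θ : Rn n k ≃+* Rn n k),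
  ∃ Θ : Rn (n + 1) k ≃+* Rn (n + 1) k, ∀ (f : Rn (n + 1) k) (j : ℕ),
    PowerSeries.coeff j (finSuccEquiv k n (Θ f)) = θ (PowerSeries.coeff j (finSuccEquiv k n f))

/-! ### Derivations and automorphisms -/

/-- Task MIN: a maximal minor of the matrix of all derivatives. -/
def MIN : Prop := ∀ (R : Type) [CommRing R] [IsDomain R] (r : ℕ) (f : Fin r → R),
  ∃ (s : ℕ) (D : Fin s → Derivation ℤ R R) (j : Fin s → Fin r),
    (Matrix.of fun i l => D i (f (j l))).det ≠ 0 ∧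
    ∀ i, ∃ a : Fin s → R, ∀ D' : Derivation ℤ R R,
      (Matrix.of fun i l => D i (f (j l))).det * D' (f i) = ∑ l, a l * D' (f (j l))

/-- Task LIFT: endomorphisms with given first order term. (Uses SMO, EVAL, COMP, COMM, CLO.) -/
def LIFT : Prop := ∀ (p : ℕ) [Fact p.Prime] (k : Type) [Field k] [CharP k p] (n s : ℕ)
  (D : Fin s → Derivation ℤ (Rn n k) (Rn n k)) (y : Rn n k) (h : Fin s → Rn n k),
  constantCoeff y = 0 → (∀ i, y ∣ h i) →
  ∃ τ : Rn n k →+* Rn n k, ∀ f, y ^ 2 ∣ τ f - f - ∑ i, h i * D i f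

/-- Task STEP: one step of the Newton iteration. (Uses LIFT.) -/
def STEP : Prop := ∀ (p : ℕ) [Fact p.Prime] (k : Type) [Field k] [CharP k p] (n s : ℕ)
  (D : Fin s → Derivation ℤ (Rn n k) (Rn n k)) (f F : Fin s → Rn n k) (x : Rn n k) (a : ℕ),
  constantCoeff x = 0 → 2 ≤ a → (Matrix.of fun i l => D i (f l)).det ≠ 0 →
  (∀ l, x ^ a * (Matrix.of fun i l => D i (f l)).det ^ 2 ∣ f l - F l) →
  ∃ τ : Rn n k →+* Rn n k, (∀ g, x ^ a ∣ τ g - g) ∧
    ∀ l, x ^ (2 * a) * (Matrix.of fun i l => D i (f l)).det ^ 2 ∣ f l - τ (F l)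

/-- Task LIM: limits of endomorphisms. -/
def LIM : Prop := ∀ (R : Type) [CommRing R] (x : R) [IsAdicComplete (Ideal.span {x}) R]
  (Θ : ℕ → R →+* R), (∀ ν g, x ^ (ν + 2) ∣ Θ (ν + 1) g - Θ ν g) → (∀ g, Θ 0 g = g) →
  ∃ Θ' : R →+* R, (∀ ν g, x ^ (ν + 2) ∣ Θ' g - Θ ν g)

/-- Task BIJ: endomorphisms which are the identity modulo `x ^ 2` are bijective. -/
def BIJ : Prop := ∀ (R : Type) [CommRing R] [IsDomain R] (x : R) [IsAdicComplete (Ideal.span {x}) R]
  (Θ : R →+* R), (∀ g, x ^ 2 ∣ Θ g - g) → Function.Bijective Θ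

/-- Task NEW: the Newton iteration (Uses STEP, LIM, BIJ, COMP.) -/
def NEW : Prop := ∀ (p : ℕ) [Fact p.Prime] (k : Type) [Field k] [CharP k p] (n s : ℕ)
  (D : Fin s → Derivation ℤ (Rn n k) (Rn n k)) (f F : Fin s → Rn n k) (x : Rn n k),
  constantCoeff x = 0 → (Matrix.of fun i l => D i (f l)).det ≠ 0 →
  (∀ l, x ^ 2 * (Matrix.of fun i l => D i (f l)).det ^ 2 ∣ f l - F l) →
  ∃ τ : Rn n k ≃+* Rn n k, ∀ l, τ (F l) = f l

/-- Task CN: finitely many power series are defined over a small subfield, up to an automorphism.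
(Uses everything above except EVAL, UNIQ, SUR.) -/
def CN : Prop := ∀ (p : ℕ) [Fact p.Prime] (k : Type) [Field k] [CharP k p] (n r : ℕ)
  (f : Fin r → Rn n k), ∃ (θ : Rn n k ≃+* Rn n k) (L : Subfield k) (g : Fin r → Rn n k),
    Sml p L ∧ (∀ j α, coeff α (g j) ∈ L) ∧ ∀ j, θ (g j) = f j

/-! ### The Frobenius -/

/-- Task PRE: presentation of a complete local ring. (Uses CN, SMO, EVAL, SUR.) -/
def PRE : Prop := ∀ (p : ℕ) [Fact p.Prime] (A : Type) [CommRing A] [IsLocalRing A]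
  [IsNoetherianRing A] [IsAdicComplete (maximalIdeal A) A] [CharP A p],
  ∃ (n r : ℕ) (E : Rn n (ResidueField A) →+* A) (L : Subfield (ResidueField A))
    (g : Fin r → Rn n (ResidueField A)), Function.Surjective E ∧ (∀ c, residue A (E (C c)) = c) ∧
    (maximalIdeal A = Ideal.span (Set.range fun i => E (X i))) ∧
    RingHom.ker E = Ideal.span (Set.range g) ∧ Sml p L ∧ ∀ j α, coeff α (g j) ∈ L

/-- Task FRA: `p`-th powers and monomials: existence and uniqueness, over a perfect field. -/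
def FRA : Prop := ∀ (p : ℕ) [Fact p.Prime] (K : Type) [Field K] [CharP K p] [PerfectRing K p]
  (n : ℕ), (∀ f : Rn n K, ∃ c : (Fin n → Fin p) → Rn n K, f = ∑ β, (∏ i, X i ^ (β i : ℕ)) * c β ^ p) ∧
    ∀ c c' : (Fin n → Fin p) → Rn n K, ∑ β, (∏ i, X i ^ (β i : ℕ)) * c β ^ p =
      ∑ β, (∏ i, X i ^ (β i : ℕ)) * c' β ^ p → c = c'

/-- Task FRB: `p`-th powers and monomials, with coefficients in a small subfield. -/
def FRB : Prop := ∀ (p : ℕ) [Fact p.Prime] (k : Type) [Field k] [CharP k p] (n : ℕ)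
  (L : Subfield k), Sml p L → ∀ g : Rn n k, (∀ α, coeff α g ∈ L) →
  ∃ (s : Finset k) (G : k → (Fin n → Fin p) → Rn n k),
    g = ∑ β, ∑ b ∈ s, C b * (∏ i, X i ^ (β i : ℕ)) * G b β ^ p

/-- Task CMP: the completion of `K ⊗ A`. Here `A = k⟦X⟧ / (g)` by `E`, the `k`-algebra structure is
given by `E` and the constants, and `K` is a field extension of `k`. (Uses EVAL, UNIQ, SUR, POW,
CLO.) -/
def CMP : Prop := ∀ (k K A : Type) [Field k] [Field K] [Algebra k K] [CommRing A] [Algebra k A]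
  [IsLocalRing A] [IsNoetherianRing A] (n r : ℕ) (E : Rn n k →+* A) (g : Fin r → Rn n k),
  Function.Surjective E → (∀ c, E (C c) = algebraMap k A c) →
  maximalIdeal A = Ideal.span (Set.range fun i => E (X i)) →
  RingHom.ker E = Ideal.span (Set.range g) → ∀ I : Ideal (K ⊗[k] A),
  I = (maximalIdeal A).map (Algebra.TensorProduct.includeRight : A →ₐ[k] K ⊗[k] A) →
  ∃ π : Rn n K →+* AdicCompletion I (K ⊗[k] A), Function.Surjective π ∧
    RingHom.ker π = Ideal.span (Set.range fun j => MvPowerSeries.map (algebraMap k K) (g j)) ∧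
    (∀ c : K, π (C c) = algebraMap (K ⊗[k] A) _ (c ⊗ₜ[k] 1)) ∧
    ∀ f : Rn n k, π (MvPowerSeries.map (algebraMap k K) f) = algebraMap (K ⊗[k] A) _ (1 ⊗ₜ[k] E f)

/-- Task DES: descent of the Frobenius. Abstract form: `B → B̂` a homomorphism of rings (`B̂` is the
completion of `B`), `π : K⟦X⟧ → B̂` surjective, with the kernel generated by `h_j`, `K` perfect, the
constants and the variables come from `B`, and `h_j = ∑ β, X ^ β (H j β) ^ p` where the images of the
`H j β` in `B̂` come from `B`. (Uses FRA.) -/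
def DES : Prop := ∀ (p : ℕ) [Fact p.Prime] (K B B' : Type) [Field K] [CharP K p] [PerfectRing K p]
  [CommRing B] [CommRing B'] [Algebra B B'] (n r : ℕ) (π : Rn n K →+* B') (h : Fin r → Rn n K)
  (H : Fin r → (Fin n → Fin p) → Rn n K) (x : Fin n → B), Function.Surjective π →
  RingHom.ker π = Ideal.span (Set.range h) → (∀ i, π (X i) = algebraMap B B' (x i)) →
  (∀ j, h j = ∑ β, (∏ i, X i ^ (β i : ℕ)) * H j β ^ p) →
  (∀ j β, ∃ b : B, π (H j β) = algebraMap B B' b) →
  ∃ (C' : Type) (_ : CommRing C') (_ : Algebra B C'), Module.Finite B C' ∧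
    ∃ φ : (C' ⊗[B] B') ≃+* B', ∀ x : B', φ ((1 : C') ⊗ₜ[B] x) = x ^ p

/-- Task MAIN. -/
def MAIN : Prop := ∀ (p : ℕ) [Fact p.Prime] (A : Type) [CommRing A] [IsLocalRing A]
  [IsNoetherianRing A] [IsAdicComplete (maximalIdeal A) A] [CharP A p]
  [CharP (ResidueField A) p],
  ∃ σ : ResidueField A →+* A, IsCoefficientField σ ∧ Decompletes p σ

end Pool.Agent.T2h14.FD
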