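import Pool.Agent.T2h14.FD.Stm

/-!
Task LIFT: endomorphisms of the power series ring with a given first order term.
-/

set_option autoImplicit false

open MvPowerSeries IsLocalRing
open scoped TensorProduct

namespace Pool.Agent.T2h14.FD

/-- homomorphisms from a field to a complete quotient lift -/
theorem lift_field (h1 : SMO) (p : ℕ) [Fact p.Prime] (k : Type) [Field k] [CharP k p] (S : Type)
    [CommRing S] [CharP S p] (I : Ideal S) [IsAdicComplete I S] (f : k →+* S ⧸ I) :
    ∃ g : k →+* S, ∀ c, Ideal.Quotient.mk I (g c) = f c := by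
  letI : Algebra (ZMod p) k := ZMod.algebra k p
  letI : Algebra (ZMod p) S := ZMod.algebra S p
  haveI : Algebra.FormallySmooth (ZMod p) k := h1 p k
  let f' : k →ₐ[ZMod p] S ⧸ I :=
    { f with
      commutes' := fun z => by
        have : f.comp (algebraMap (ZMod p) k) = algebraMap (ZMod p) (S ⧸ I) :=
          RingHom.ext_zmod _ _
        exact congrArg (fun g : ZMod p →+* S ⧸ I => g z) this }
  obtain ⟨g, hg⟩ := Algebra.FormallySmooth.exists_mkₐ_comp_eq_of_isAdicComplete f'
  refine ⟨g.toRingHom, fun c => ?_⟩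
  have := congrArg (fun u : k →ₐ[ZMod p] S ⧸ I => u c) hg
  exact this

/-- derivations decrease the order by at most one -/
theorem der_pow {n : ℕ} {k : Type} [Field k] (D : Derivation ℤ (Rn n k) (Rn n k))
    (I : Ideal (Rn n k)) (m : ℕ) : ∀ x ∈ I ^ (m + 1), D x ∈ I ^ m := by
  induction m with
  | zero => intro x _; simp
  | succ m ih =>
    intro x hx
    rw [pow_succ] at hx
    refine Submodule.mul_induction_on hx ?_ ?_
    · intro a ha b hb
      rw [Derivation.leibniz, smul_eq_mul, smul_eq_mul]
      refine Ideal.add_mem _ (Ideal.mul_mem_right _ _ ha) ?_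
      rw [pow_succ']
      exact Ideal.mul_mem_mul hb (ih a ha)
    · intro a b ha hb
      rw [map_add]
      exact Ideal.add_mem _ ha hb

/-- the ring homomorphism `f ↦ f + ∑ h_i D_i f` modulo `y ^ 2` -/
noncomputable def firstOrder {n : ℕ} {k : Type} [Field k] {s : ℕ}
    (D : Fin s → Derivation ℤ (Rn n k) (Rn n k)) (y : Rn n k)
    (h : Fin s → Rn n k) (hy : ∀ i, y ∣ h i) : Rn n k →+* Rn n k ⧸ Ideal.span {y ^ 2} where
  toFun f := Ideal.Quotient.mk _ (f + ∑ i, h i * D i f)
  map_one' := by simp
  map_zero' := by simp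
  map_add' a b := by
    rw [← map_add]
    congr 1
    simp only [map_add, mul_add, Finset.sum_add_distrib]
    ring
  map_mul' a b := by
    rw [← map_mul, Ideal.Quotient.eq, Ideal.mem_span_singleton]
    have e : a * b + ∑ i, h i * D i (a * b) - (a + ∑ i, h i * D i a) * (b + ∑ i, h i * D i b) =
        - ((∑ i, h i * D i a) * (∑ i, h i * D i b)) := by
      have e1 : ∑ i, h i * D i (a * b) = a * (∑ i, h i * D i b) + b * ∑ i, h i * D i a := by
        rw [Finset.mul_sum, Finset.mul_sum, ← Finset.sum_add_distrib]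
        refine Finset.sum_congr rfl fun i _ => ?_
        rw [Derivation.leibniz, smul_eq_mul, smul_eq_mul]
        ring
      rw [e1]
      ring
    rw [e, dvd_neg, pow_two]
    exact mul_dvd_mul (Finset.dvd_sum fun i _ => (hy i).mul_right _)
      (Finset.dvd_sum fun i _ => (hy i).mul_right _)

theorem t_LIFT (h1 : SMO) (h2 : EVAL) (h3 : COMP) (h4 : COMM) (h5 : CLO) (h6 : POW) : LIFT := by
  intro p _ k _ _ n s D y h hy hh
  haveI : CharP (Rn n k) p := charP_of_injective_ringHom (C_injective (σ := Fin n) (R := k)) p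
  haveI hI : IsAdicComplete (Ideal.span {y ^ 2}) (Rn n k) := h3 k n (y ^ 2) (by simp [hy])
  haveI hm : IsAdicComplete (maximalIdeal (Rn n k)) (Rn n k) := h4 k n
  let φ := firstOrder D y h hh
  obtain ⟨ψ, hψ⟩ := lift_field h1 p k (Rn n k) (Ideal.span {y ^ 2}) (φ.comp C)
  have hconst : ∀ u : Rn n k, constantCoeff u = 0 → u ∈ maximalIdeal (Rn n k) := by
    intro u hu
    have := (h6 k n 1 u).2 (by
      intro α hα
      have : α = 0 := by
        have : α.degree = 0 := by omega
        exact (Finsupp.degree_eq_zero_iff α).1 this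
      rw [this]
      exact hu)
    simpa using this
  obtain ⟨τ, hτC, hτX, hτo⟩ := h2 k (Rn n k) (maximalIdeal (Rn n k)) n ψ
    (fun i => X i + ∑ j, h j * D j (X i)) (by
      intro i
      apply hconst
      simp only [map_add, map_sum, map_mul, constantCoeff_X, zero_add]
      refine Finset.sum_eq_zero fun j _ => ?_
      obtain ⟨c, hc⟩ := hh j
      rw [hc, map_mul, hy, zero_mul, zero_mul])
  refine ⟨τ, fun f => ?_⟩
  rw [← Ideal.mem_span_singleton]
  -- polynomials
  have hpol : ∀ P : MvPolynomial (Fin n) k,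
      Ideal.Quotient.mk (Ideal.span {y ^ 2}) (τ (P : Rn n k)) = φ (P : Rn n k) := by
    intro P
    have : ((Ideal.Quotient.mk (Ideal.span {y ^ 2})).comp τ).comp
        (MvPolynomial.coeToMvPowerSeries.ringHom) =
        φ.comp (MvPolynomial.coeToMvPowerSeries.ringHom) := by
      apply MvPolynomial.ringHom_ext
      · intro c
        simp only [RingHom.comp_apply, MvPolynomial.coeToMvPowerSeries.ringHom_apply,
          MvPolynomial.coe_C]
        rw [hτC, hψ]
        rfl
      · intro i
        simp only [RingHom.comp_apply, MvPolynomial.coeToMvPowerSeries.ringHom_apply,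
          MvPolynomial.coe_X]
        rw [hτX]
        rfl
    exact congrArg (fun g : MvPolynomial (Fin n) k →+* Rn n k ⧸ Ideal.span {y ^ 2} => g P) this
  refine h5 k n _ _ fun m => ?_
  set P : MvPolynomial (Fin n) k := truncTotal (m + 1) f with hP
  have hg : OrdGe (m + 1) (f - (P : Rn n k)) := by
    intro α hα
    rw [map_sub, MvPolynomial.coeff_coe, hP, coeff_truncTotal _ hα, sub_self]
  refine ⟨τ (P : Rn n k) - P - ∑ i, h i * D i (P : Rn n k), ?_, ?_⟩
  · have := hpol P
    have h' : φ (P : Rn n k) = Ideal.Quotient.mk _ ((P : Rn n k) + ∑ i, h i * D i (P : Rn n k)) :=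
      rfl
    rw [h', Ideal.Quotient.eq] at this
    rwa [sub_sub]
  · rw [← h6]
    set g := f - (P : Rn n k) with hgdef
    have hfg : f = P + g := by rw [hgdef]; ring
    have e : τ f - f - ∑ i, h i * D i f - (τ (P : Rn n k) - P - ∑ i, h i * D i (P : Rn n k)) =
        τ g - g - ∑ i, h i * D i g := by
      rw [hfg]
      simp only [map_add, mul_add, Finset.sum_add_distrib]
      ring
    rw [e]
    have hgm : g ∈ maximalIdeal (Rn n k) ^ (m + 1) := (h6 k n (m + 1) g).2 hg
    have hle : maximalIdeal (Rn n k) ^ (m + 1) ≤ maximalIdeal (Rn n k) ^ m :=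
      Ideal.pow_le_pow_right (Nat.le_succ m)
    refine Ideal.sub_mem _ (Ideal.sub_mem _ (hle (hτo _ _ hg)) (hle hgm)) ?_
    exact Ideal.sum_mem _ fun i _ => Ideal.mul_mem_left _ _ (der_pow (D i) _ m g hgm)

end Pool.Agent.T2h14.FD
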